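import Mathlib

/-!
# No three collinear points on the graph of an increasing integer sequence

`N x ≥ c x ^ (4/7)` for all `x ≥ 1`; in particular `N x / √x` is unbounded.

Construction. Let `K ≥ 1`, let `p` be a prime with `6 K² < p ≤ 12 K²`, and put
`a j = (j² + p e j) / K + 2 K p j`, where `e j ∈ [0, 2 K²)` has the form `K h j + ρ j` with
`ρ j ∈ [0, K)` the residue making the division exact, and with a band `h j`, depending only on
`j` modulo `p`, such that `h i ≠ h (i + s)` for `0 < s < K`.  A collinear triple gives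
`r s (r + s) + p (s e k + r e i - (r + s) e j) = 0`, so that `p` divides `r`, `s` or `r + s`;
since `p` is large this forces two of the three bands to agree although they must differ.
-/

set_option autoImplicit false

namespace Pool.Agent.Results.MP_6d8139_co.FourSevenths

/-- The point `(j, a j)` of the plane. -/
noncomputable def pt (a : ℕ → ℤ) (j : ℕ) : ℝ × ℝ := ((j : ℝ), (a j : ℝ))

/-- There are integers `0 < a 1 < a 2 < ⋯ < a n ≤ x` such that no three of the points `(j, a j)`,
`1 ≤ j ≤ n`, are collinear. -/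
def Admissible (x : ℝ) (n : ℕ) : Prop :=
  ∃ a : ℕ → ℤ, (∀ j, 1 ≤ j → j ≤ n → 0 < a j ∧ (a j : ℝ) ≤ x) ∧
    (∀ i j, 1 ≤ i → i < j → j ≤ n → a i < a j) ∧
    ∀ i j k, 1 ≤ i → i < j → j < k → k ≤ n →
      ¬ Collinear ℝ ({pt a i, pt a j, pt a k} : Set (ℝ × ℝ))

/-- `N x`: the largest `n` such that there are integers `0 < a 1 < ⋯ < a n ≤ x` with no three of
the points `(j, a j)` on a line. -/
noncomputable def N (x : ℝ) : ℕ := sSup {n : ℕ | Admissible x n}

lemma admissible_le {x : ℝ} {n : ℕ} (h : Admissible x n) : n ≤ ⌈x⌉₊ := by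
  obtain ⟨a, h1, h2, _⟩ := h
  have key : ∀ j : ℕ, 1 ≤ j → j ≤ n → (j : ℤ) ≤ a j := by
    intro j hj
    induction j, hj using Nat.le_induction with
    | base =>
      intro hn
      have := (h1 1 le_rfl hn).1
      push_cast
      omega
    | succ m hm ih =>
      intro hn
      have := ih (by omega)
      have := h2 m (m + 1) hm (by omega) hn
      push_cast
      omega
  rcases Nat.eq_zero_or_pos n with rfl | hn
  · exact Nat.zero_le _
  · have h3 := key n hn le_rfl
    have h4 := (h1 n hn le_rfl).2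
    have h5 : (n : ℝ) ≤ x := le_trans (by exact_mod_cast h3) h4
    exact_mod_cast h5.trans (Nat.le_ceil x)

lemma le_N {x : ℝ} {n : ℕ} (h : Admissible x n) : n ≤ N x :=
  le_csSup ⟨⌈x⌉₊, fun _ hm => admissible_le hm⟩ h

/-- A collinear triple on the graph, in algebraic form. -/
lemma collinear_eq {a : ℕ → ℤ} {i j k : ℕ}
    (h : Collinear ℝ ({pt a i, pt a j, pt a k} : Set (ℝ × ℝ))) :
    ((k : ℤ) - j) * (a j - a i) = ((j : ℤ) - i) * (a k - a j) := by
  rw [collinear_iff_of_mem (p₀ := pt a j) (by simp)] at h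
  obtain ⟨v, hv⟩ := h
  obtain ⟨r, hr⟩ := hv (pt a i) (by simp)
  obtain ⟨s, hs⟩ := hv (pt a k) (by simp)
  have hr1 := congrArg Prod.fst hr
  have hr2 := congrArg Prod.snd hr
  have hs1 := congrArg Prod.fst hs
  have hs2 := congrArg Prod.snd hs
  simp [pt] at hr1 hr2 hs1 hs2
  have : ((k : ℝ) - j) * ((a j : ℝ) - a i) = ((j : ℝ) - i) * ((a k : ℝ) - a j) := by
    rw [hr1, hr2, hs1, hs2]; ring
  exact_mod_cast this

/-- The band of an index. -/
def band (K p u : ℕ) : ℕ := if u % p < K * (p / K) then u % p % K else K + u % p % K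

lemma band_lt {K p : ℕ} (hK : 0 < K) (u : ℕ) : band K p u < 2 * K := by
  unfold band
  have := Nat.mod_lt (u % p) hK
  split_ifs <;> omega

lemma band_congr {K p u v : ℕ} (h : u % p = v % p) : band K p u = band K p v := by
  unfold band
  rw [h]

lemma mod_ne_of_lt {K x y : ℕ} (h1 : x < y) (h2 : y < x + K) : x % K ≠ y % K := by
  intro h
  have h3 : x ≡ y [MOD K] := h
  have h4 : K ∣ y - x := (Nat.modEq_iff_dvd' h1.le).1 h3
  have := Nat.le_of_dvd (by omega) h4
  omega

lemma band_ne {K p i s : ℕ} (hK : 0 < K) (hp : K ≤ p) (hs : 0 < s) (hsK : s < K) :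
    band K p i ≠ band K p (i + s) := by
  have hp0 : 0 < p := by omega
  have hj : i % p < p := Nat.mod_lt _ hp0
  have hj' : (i + s) % p < p := Nat.mod_lt _ hp0
  have hq : K * (p / K) ≤ p := Nat.mul_div_le p K
  have hq1 : K ≤ K * (p / K) := by
    have : 1 ≤ p / K := (Nat.one_le_div_iff hK).2 hp
    nlinarith
  have hmod : p % K + K * (p / K) = p := Nat.mod_add_div p K
  have hwrap : (i + s) % p = i % p + s ∨ (i + s) % p + p = i % p + s := by
    have h1 : (i + s) % p = (i % p + s) % p := by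
      rw [Nat.add_mod, Nat.add_mod (i % p) s, Nat.mod_mod]
    rw [h1]
    rcases lt_or_ge (i % p + s) p with h | h
    · left; exact Nat.mod_eq_of_lt h
    · right
      have h2 : i % p + s = (i % p + s - p) + p := by omega
      have h3 : (i % p + s) % p = i % p + s - p := by
        rw [h2, Nat.add_mod_right, Nat.mod_eq_of_lt (by omega)]
        omega
      omega
  have hA := Nat.mod_lt (i % p) hK
  have hB := Nat.mod_lt ((i + s) % p) hK
  unfold band
  generalize i % p = j at *
  generalize (i + s) % p = j' at *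
  rcases hwrap with h | h
  · -- no wrap
    have hne : j % K ≠ j' % K := mod_ne_of_lt (by omega) (by omega)
    split_ifs <;> omega
  · -- wrap
    have hj'K : j' < K := by omega
    have hj'm : j' % K = j' := Nat.mod_eq_of_lt hj'K
    rw [if_pos (show j' < K * (p / K) by omega), hj'm]
    split_ifs with h1
    · intro h2
      -- `j ≡ j'` modulo `K`, so `p ≡ s` modulo `K`
      have h3 : j ≡ j' [MOD K] := by
        show j % K = j' % K
        rw [h2, hj'm]
      have h4 : j' + p ≡ j' + s [MOD K] := by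
        rw [h]
        exact Nat.ModEq.add_right s h3
      have h5 : p ≡ s [MOD K] := Nat.ModEq.add_left_cancel' j' h4
      have h6 : p % K = s := by
        have : p % K = s % K := h5
        rw [this, Nat.mod_eq_of_lt hsK]
      omega
    · omega

/-- The key arithmetic fact. -/
lemma key_cases {p : ℕ} (hp : p.Prime) {E r s x y z : ℤ} (hE : 3 * E < p) (hr : 0 < r)
    (hs : 0 < s) (hx : 0 ≤ x) (hxE : x ≤ E) (hy : 0 ≤ y) (hyE : y ≤ E) (hz : 0 ≤ z) (hzE : z ≤ E)
    (h : r * s * (r + s) + p * (s * z + r * x - (r + s) * y) = 0) :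
    (∃ w : ℤ, 0 < w ∧ r = p * w ∧ z = x ∧ y = x + w * s) ∨
    (∃ w : ℤ, 0 < w ∧ s = p * w ∧ z = x ∧ y = x + w * r) ∨
    (∃ w : ℤ, 0 < w ∧ r + s = p * w ∧ z = x + s * w ∧ y = x + s * w) ∨
    (∃ w : ℤ, 0 < w ∧ r + s = p * w ∧ x = z + r * w ∧ y = z + r * w) := by
  have hpZ : Prime (p : ℤ) := Nat.prime_iff_prime_int.1 hp
  have hp0 : (0 : ℤ) < p := by exact_mod_cast hp.pos
  have hE0 : 0 ≤ E := hx.trans hxE
  -- small multiples of `p` vanish
  have small : ∀ u : ℤ, (p : ℤ) ∣ u → -(p : ℤ) < u → u < p → u = 0 := by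
    intro u hu h1 h2
    exact Int.eq_zero_of_abs_lt_dvd hu (abs_lt.2 ⟨h1, h2⟩)
  have hrsE : r * s ≤ p * E := by
    have h1 : r * s * (r + s) = p * ((r + s) * y - s * z - r * x) := by linarith
    have h2 : r * s * (r + s) ≤ p * ((r + s) * E) := by
      rw [h1]
      have : (r + s) * y - s * z - r * x ≤ (r + s) * E := by nlinarith
      nlinarith
    have h3 : (r * s) * (r + s) ≤ (p * E) * (r + s) := by linarith
    exact le_of_mul_le_mul_right h3 (by linarith)
  have hdvd : (p : ℤ) ∣ r * s * (r + s) := ⟨-(s * z + r * x - (r + s) * y), by linarith⟩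
  rcases hpZ.dvd_or_dvd hdvd with h1 | h1
  · rcases hpZ.dvd_or_dvd h1 with ⟨w, hw⟩ | ⟨w, hw⟩
    · -- `r = p w`
      left
      have hw0 : 0 < w := by
        by_contra hcon
        push Not at hcon
        nlinarith
      have hws : w * s ≤ E := by
        have : (p : ℤ) * (w * s) ≤ p * E := by rw [hw] at hrsE; linarith
        exact le_of_mul_le_mul_left this hp0
      have hsE : s ≤ E := by nlinarith
      have h2 : (p : ℤ) * w * (w * s + x - y) + s * (w * s + z - y) = 0 := by
        have h3 : (p : ℤ) * (p * w * (w * s + x - y) + s * (w * s + z - y)) = 0 := by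
          rw [hw] at h
          linarith
        exact (mul_eq_zero.1 h3).resolve_left hp0.ne'
      have h3 : (p : ℤ) ∣ s * (w * s + z - y) := ⟨-(w * (w * s + x - y)), by linarith⟩
      have h4 : w * s + z - y = 0 := by
        rcases hpZ.dvd_or_dvd h3 with h5 | h5
        · exfalso
          have := Int.le_of_dvd hs h5
          linarith
        · apply small _ h5
          · have : 0 < w * s := mul_pos hw0 hs
            linarith
          · linarith
      have h5 : w * s + x - y = 0 := by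
        rw [h4, mul_zero, add_zero] at h2
        rcases mul_eq_zero.1 h2 with h6 | h6
        · have : 0 < (p : ℤ) * w := mul_pos hp0 hw0
          linarith
        · exact h6
      exact ⟨w, hw0, hw, by linarith, by linarith⟩
    · -- `s = p w`
      right; left
      have hw0 : 0 < w := by
        by_contra hcon
        push Not at hcon
        nlinarith
      have hws : w * r ≤ E := by
        have : (p : ℤ) * (w * r) ≤ p * E := by rw [hw] at hrsE; linarith
        exact le_of_mul_le_mul_left this hp0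
      have hsE : r ≤ E := by nlinarith
      have h2 : (p : ℤ) * w * (w * r + z - y) + r * (w * r + x - y) = 0 := by
        have h3 : (p : ℤ) * (p * w * (w * r + z - y) + r * (w * r + x - y)) = 0 := by
          rw [hw] at h
          linarith
        exact (mul_eq_zero.1 h3).resolve_left hp0.ne'
      have h3 : (p : ℤ) ∣ r * (w * r + x - y) := ⟨-(w * (w * r + z - y)), by linarith⟩
      have h4 : w * r + x - y = 0 := by
        rcases hpZ.dvd_or_dvd h3 with h5 | h5
        · exfalso
          have := Int.le_of_dvd hr h5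
          linarith
        · apply small _ h5
          · have : 0 < w * r := mul_pos hw0 hr
            linarith
          · linarith
      have h5 : w * r + z - y = 0 := by
        rw [h4, mul_zero, add_zero] at h2
        rcases mul_eq_zero.1 h2 with h6 | h6
        · have : 0 < (p : ℤ) * w := mul_pos hp0 hw0
          linarith
        · exact h6
      exact ⟨w, hw0, hw, by linarith, by linarith⟩
  · -- `r + s = p w`
    obtain ⟨w, hw⟩ := h1
    have hw0 : 0 < w := by
      by_contra hcon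
      push Not at hcon
      nlinarith
    have hmain : r * s * w + (s * z + r * x - p * w * y) = 0 := by
      have h3 : (p : ℤ) * (r * s * w + (s * z + r * x - p * w * y)) = 0 := by
        rw [hw] at h
        linarith
      exact (mul_eq_zero.1 h3).resolve_left hp0.ne'
    rcases le_total s r with hsr | hsr
    · right; right; left
      have hsw : s * w ≤ 2 * E := by
        have h1 : (p : ℤ) * w ≤ 2 * r := by linarith
        have h2 : (p : ℤ) * (s * w) ≤ p * (2 * E) := by nlinarith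
        exact le_of_mul_le_mul_left h2 hp0
      have hsE : s ≤ 2 * E := by nlinarith
      have hr' : r = p * w - s := by linarith
      have h2 : (p : ℤ) * w * (s * w + x - y) + s * (z - x - s * w) = 0 := by
        rw [hr'] at hmain
        linarith
      have h3 : (p : ℤ) ∣ s * (z - x - s * w) := ⟨-(w * (s * w + x - y)), by linarith⟩
      have h4 : z - x - s * w = 0 := by
        rcases hpZ.dvd_or_dvd h3 with h5 | h5
        · exfalso
          have := Int.le_of_dvd hs h5
          linarith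
        · have : 0 < s * w := mul_pos hs hw0
          apply small _ h5
          · linarith
          · linarith
      have h5 : s * w + x - y = 0 := by
        rw [h4, mul_zero, add_zero] at h2
        rcases mul_eq_zero.1 h2 with h6 | h6
        · have : 0 < (p : ℤ) * w := mul_pos hp0 hw0
          linarith
        · exact h6
      exact ⟨w, hw0, hw, by linarith, by linarith⟩
    · right; right; right
      have hsw : r * w ≤ 2 * E := by
        have h1 : (p : ℤ) * w ≤ 2 * s := by linarith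
        have h2 : (p : ℤ) * (r * w) ≤ p * (2 * E) := by nlinarith
        exact le_of_mul_le_mul_left h2 hp0
      have hsE : r ≤ 2 * E := by nlinarith
      have hr' : s = p * w - r := by linarith
      have h2 : (p : ℤ) * w * (r * w + z - y) + r * (x - z - r * w) = 0 := by
        rw [hr'] at hmain
        linarith
      have h3 : (p : ℤ) ∣ r * (x - z - r * w) := ⟨-(w * (r * w + z - y)), by linarith⟩
      have h4 : x - z - r * w = 0 := by
        rcases hpZ.dvd_or_dvd h3 with h5 | h5
        · exfalso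
          have := Int.le_of_dvd hr h5
          linarith
        · have : 0 < r * w := mul_pos hr hw0
          apply small _ h5
          · linarith
          · linarith
      have h5 : r * w + z - y = 0 := by
        rw [h4, mul_zero, add_zero] at h2
        rcases mul_eq_zero.1 h2 with h6 | h6
        · have : 0 < (p : ℤ) * w := mul_pos hp0 hw0
          linarith
        · exact h6
      exact ⟨w, hw0, hw, by linarith, by linarith⟩

/-- The number `e j`. -/
def e (K p : ℕ) (m : ℤ) (j : ℕ) : ℤ := K * (band K p j : ℤ) + ((j : ℤ) ^ 2 * m) % K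

lemma lt_of_mul_lt' {w r c : ℤ} (hw : 0 < w) (hr : 0 < r) (h : w * r < c) : r < c := by
  have : 1 * r ≤ w * r := mul_le_mul_of_nonneg_right (by omega) hr.le
  linarith

section construction

variable {K p : ℕ} {m : ℤ}

lemma rho_bounds (hK : 0 < K) (j : ℕ) :
    0 ≤ ((j : ℤ) ^ 2 * m) % K ∧ ((j : ℤ) ^ 2 * m) % K < K :=
  ⟨Int.emod_nonneg _ (by exact_mod_cast hK.ne'), Int.emod_lt_of_pos _ (by exact_mod_cast hK)⟩

lemma e_nonneg (hK : 0 < K) (j : ℕ) : 0 ≤ e K p m j := by
  have := (rho_bounds (m := m) hK j).1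
  unfold e
  positivity

lemma e_le (hK : 0 < K) (j : ℕ) : e K p m j ≤ 2 * (K : ℤ) ^ 2 - 1 := by
  have h1 := (rho_bounds (m := m) hK j).2
  have h2 : (band K p j : ℤ) ≤ 2 * K - 1 := by
    have := band_lt (p := p) hK j
    omega
  have hK' : (0 : ℤ) < K := by exact_mod_cast hK
  unfold e
  nlinarith

lemma e_dvd (hm : (K : ℤ) ∣ p * m + 1) (j : ℕ) : (K : ℤ) ∣ (j : ℤ) ^ 2 + p * e K p m j := by
  obtain ⟨c, hc⟩ := hm
  have h1 : ((j : ℤ) ^ 2 * m) % K = (j : ℤ) ^ 2 * m - K * ((j : ℤ) ^ 2 * m / K) := by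
    have := Int.mul_ediv_add_emod ((j : ℤ) ^ 2 * m) K
    linarith
  refine ⟨(j : ℤ) ^ 2 * c + p * band K p j - p * ((j : ℤ) ^ 2 * m / K), ?_⟩
  unfold e
  rw [h1]
  linear_combination ((j : ℤ) ^ 2) * hc

lemma band_eq_of_e_eq (hK : 0 < K) {i j : ℕ} (h : e K p m i = e K p m j) :
    band K p i = band K p j := by
  have h1 := rho_bounds (m := m) hK i
  have h2 := rho_bounds (m := m) hK j
  have hK' : (0 : ℤ) < K := by exact_mod_cast hK
  unfold e at h
  have h3 : (K : ℤ) * ((band K p i : ℤ) - band K p j) < K * 1 := by linarith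
  have h4 : (K : ℤ) * (-1) < K * ((band K p i : ℤ) - band K p j) := by linarith
  have h5 := lt_of_mul_lt_mul_left h3 hK'.le
  have h6 := lt_of_mul_lt_mul_left h4 hK'.le
  omega

lemma diff_lt (hK : 0 < K) {i j : ℕ} (h : band K p i = band K p j) :
    e K p m i - e K p m j < K := by
  have h1 := rho_bounds (m := m) hK i
  have h2 := rho_bounds (m := m) hK j
  unfold e
  rw [h]
  linarith

lemma mod_eq_of_add {p i k : ℕ} {w : ℤ} (h : (k : ℤ) - i = p * w) : k % p = i % p := by
  have : (i : ℤ) ≡ k [ZMOD p] := by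
    rw [Int.modEq_iff_dvd]
    exact ⟨w, h⟩
  exact ((Int.natCast_modEq_iff).1 this).symm

/-- The sequence of the construction. -/
def sq (K p : ℕ) (m : ℤ) (j : ℕ) : ℤ := ((j : ℤ) ^ 2 + p * e K p m j) / K + 2 * K * p * j

lemma sq_eq (hm : (K : ℤ) ∣ p * m + 1) (j : ℕ) :
    (K : ℤ) * sq K p m j = (j : ℤ) ^ 2 + p * e K p m j + 2 * (K : ℤ) ^ 2 * p * j := by
  unfold sq
  rw [mul_add, Int.mul_ediv_cancel' (e_dvd hm j)]
  ring

lemma no_collinear (hK : 0 < K) (hp : p.Prime) (hpK : 6 * K ^ 2 < p)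
    (hm : (K : ℤ) ∣ p * m + 1) {i j k : ℕ} (hij : i < j) (hjk : j < k) :
    ¬ Collinear ℝ ({pt (sq K p m) i, pt (sq K p m) j, pt (sq K p m) k} : Set (ℝ × ℝ)) := by
  intro hcol
  have h := collinear_eq hcol
  have hK' : (0 : ℤ) < K := by exact_mod_cast hK
  have hKp : K ≤ p := by
    have : K ≤ K ^ 2 := Nat.le_self_pow (by norm_num) K
    omega
  have hi := sq_eq hm i
  have hj := sq_eq hm j
  have hk := sq_eq hm k
  obtain ⟨r, hr⟩ : ∃ r : ℤ, r = (k : ℤ) - j := ⟨_, rfl⟩
  obtain ⟨s, hs⟩ : ∃ s : ℤ, s = (j : ℤ) - i := ⟨_, rfl⟩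
  have hr0 : 0 < r := by omega
  have hs0 : 0 < s := by omega
  have hmain : r * s * (r + s) +
      p * (s * e K p m k + r * e K p m i - (r + s) * e K p m j) = 0 := by
    have h1 : (K : ℤ) * (((k : ℤ) - j) * (sq K p m j - sq K p m i)) =
        K * (((j : ℤ) - i) * (sq K p m k - sq K p m j)) := by rw [h]
    have h2 : ((k : ℤ) - j) * (K * sq K p m j - K * sq K p m i) =
        ((j : ℤ) - i) * (K * sq K p m k - K * sq K p m j) := by linarith
    rw [hi, hj, hk] at h2
    rw [hr, hs]
    linarith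
  have hE : 3 * (2 * (K : ℤ) ^ 2 - 1) < p := by
    have : (6 * (K : ℤ) ^ 2) < p := by exact_mod_cast hpK
    linarith
  rcases key_cases hp hE hr0 hs0 (e_nonneg hK i) (e_le hK i) (e_nonneg hK j) (e_le hK j)
    (e_nonneg hK k) (e_le hK k) hmain with ⟨w, hw, h1, h2, h3⟩ | ⟨w, hw, h1, h2, h3⟩ |
    ⟨w, hw, h1, h2, h3⟩ | ⟨w, hw, h1, h2, h3⟩
  · have hb : band K p k = band K p j := band_congr (mod_eq_of_add (w := w) (by rw [← hr, h1]))
    have h4 := diff_lt (m := m) hK hb.symm
    have h5 : w * s < K := by linarith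
    have h6 : s < K := lt_of_mul_lt' hw hs0 h5
    have h7 := band_eq_of_e_eq hK h2
    obtain ⟨s', rfl⟩ : ∃ s' : ℕ, j = i + s' := ⟨j - i, by omega⟩
    exact band_ne hK hKp (s := s') (i := i) (by omega) (by push_cast at hs; omega)
      (by rw [← hb, h7])
  · have hb : band K p j = band K p i := band_congr (mod_eq_of_add (w := w) (by rw [← hs, h1]))
    have h4 := diff_lt (m := m) hK hb
    have h5 : w * r < K := by linarith
    have h6 : r < K := lt_of_mul_lt' hw hr0 h5
    have h7 := band_eq_of_e_eq hK h2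
    obtain ⟨s', rfl⟩ : ∃ s' : ℕ, k = j + s' := ⟨k - j, by omega⟩
    exact band_ne hK hKp (s := s') (i := j) (by omega) (by push_cast at hr; omega)
      (by rw [hb, h7])
  · have hb : band K p k = band K p i :=
      band_congr (mod_eq_of_add (w := w) (by rw [← h1, hr, hs]; ring))
    have h4 := diff_lt (m := m) hK hb
    have h5 : w * s < K := by linarith
    have h6 : s < K := lt_of_mul_lt' hw hs0 h5
    have h7 : band K p j = band K p k := band_eq_of_e_eq hK (h3.trans h2.symm)
    obtain ⟨s', rfl⟩ : ∃ s' : ℕ, j = i + s' := ⟨j - i, by omega⟩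
    exact band_ne hK hKp (s := s') (i := i) (by omega) (by push_cast at hs; omega)
      (by rw [h7, hb])
  · have hb : band K p k = band K p i :=
      band_congr (mod_eq_of_add (w := w) (by rw [← h1, hr, hs]; ring))
    have h4 := diff_lt (m := m) hK hb.symm
    have h5 : w * r < K := by linarith
    have h6 : r < K := lt_of_mul_lt' hw hr0 h5
    have h7 : band K p j = band K p i := band_eq_of_e_eq hK (h3.trans h2.symm)
    obtain ⟨s', rfl⟩ : ∃ s' : ℕ, k = j + s' := ⟨k - j, by omega⟩
    exact band_ne hK hKp (s := s') (i := j) (by omega) (by push_cast at hr; omega)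
      (by rw [h7, hb])

lemma sq_strictMono (hK : 0 < K) (hp : 0 < p) (hm : (K : ℤ) ∣ p * m + 1) :
    StrictMono (sq K p m) := by
  refine strictMono_nat_of_lt_succ fun j => ?_
  have hK' : (0 : ℤ) < K := by exact_mod_cast hK
  have hp' : (0 : ℤ) < p := by exact_mod_cast hp
  have h1 := sq_eq hm j
  have h2 := sq_eq hm (j + 1)
  have h3 := e_nonneg (p := p) (m := m) hK (j + 1)
  have h4 := e_le (p := p) (m := m) hK j
  have h5 : 0 ≤ (p : ℤ) * e K p m (j + 1) := by positivity
  have h6 : (p : ℤ) * e K p m j ≤ p * (2 * (K : ℤ) ^ 2 - 1) := by nlinarith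
  have h7 : (K : ℤ) * sq K p m j < K * sq K p m (j + 1) := by
    rw [h1, h2]
    push_cast
    nlinarith
  exact lt_of_mul_lt_mul_left h7 hK'.le

lemma sq_pos (hK : 0 < K) (hp : 0 < p) (hm : (K : ℤ) ∣ p * m + 1) {j : ℕ} (hj : 1 ≤ j) :
    0 < sq K p m j := by
  have h1 : 0 ≤ sq K p m 0 := by
    have h2 := sq_eq hm 0
    have h3 := e_nonneg (p := p) (m := m) hK 0
    have hK' : (0 : ℤ) < K := by exact_mod_cast hK
    have h4 : 0 ≤ (K : ℤ) * sq K p m 0 := by rw [h2]; positivity
    exact nonneg_of_mul_nonneg_right h4 hK'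
  exact lt_of_le_of_lt h1 (sq_strictMono hK hp hm (by omega))

end construction

/-- The construction gives an admissible sequence of length `n` up to `n²/K + 48 K³ n`. -/
lemma admissible_of (K n : ℕ) (hK : 0 < K) (x : ℝ)
    (hx : (n : ℝ) ^ 2 / K + 48 * (K : ℝ) ^ 3 * n ≤ x) : Admissible x n := by
  obtain ⟨p, hp, hp1, hp2⟩ := Nat.exists_prime_lt_and_le_two_mul (6 * K ^ 2) (by positivity)
  have hKp : K < p := by
    have : K ≤ K ^ 2 := Nat.le_self_pow (by norm_num) K
    omega
  have hcop : IsCoprime (p : ℤ) (K : ℤ) := by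
    rw [Nat.isCoprime_iff_coprime]
    refine (Nat.Prime.coprime_iff_not_dvd hp).2 fun h => ?_
    have h1 := Nat.le_of_dvd hK h
    exact absurd hKp (not_lt.2 h1)
  obtain ⟨u, v, huv⟩ := hcop
  have hm : (K : ℤ) ∣ p * (-u) + 1 := ⟨v, by linarith⟩
  have hp0 : 0 < p := hp.pos
  refine ⟨sq K p (-u), ?_, ?_, ?_⟩
  · intro j hj hjn
    refine ⟨sq_pos hK hp0 hm hj, ?_⟩
    have h1 : sq K p (-u) j ≤ sq K p (-u) n := (sq_strictMono hK hp0 hm).monotone hjn
    have h2 := sq_eq hm n
    have h3 := e_le (p := p) (m := -u) hK n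
    have hn1 : (1 : ℝ) ≤ n := by exact_mod_cast hj.trans hjn
    have hKR : (0 : ℝ) < K := by exact_mod_cast hK
    have hpR : (0 : ℝ) < p := by exact_mod_cast hp0
    have hpR2 : (p : ℝ) ≤ 2 * (6 * (K : ℝ) ^ 2) := by exact_mod_cast hp2
    have h4 : (K : ℝ) * (sq K p (-u) n : ℝ) ≤ (n : ℝ) ^ 2 + 48 * (K : ℝ) ^ 4 * n := by
      have h5 : (K : ℝ) * (sq K p (-u) n : ℝ) =
          (n : ℝ) ^ 2 + p * (e K p (-u) n : ℝ) + 2 * (K : ℝ) ^ 2 * p * n := by
        exact_mod_cast h2
      have h6 : (e K p (-u) n : ℝ) ≤ 2 * (K : ℝ) ^ 2 - 1 := by exact_mod_cast h3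
      have h7 : (p : ℝ) * (e K p (-u) n : ℝ) ≤ p * (2 * (K : ℝ) ^ 2) := by
        apply mul_le_mul_of_nonneg_left _ hpR.le
        linarith only [h6]
      have h8 : (p : ℝ) * (2 * (K : ℝ) ^ 2) ≤ 24 * (K : ℝ) ^ 4 := by
        have : (p : ℝ) * (2 * (K : ℝ) ^ 2) ≤ 2 * (6 * (K : ℝ) ^ 2) * (2 * (K : ℝ) ^ 2) :=
          mul_le_mul_of_nonneg_right hpR2 (by positivity)
        have h81 : 2 * (6 * (K : ℝ) ^ 2) * (2 * (K : ℝ) ^ 2) = 24 * (K : ℝ) ^ 4 := by ring
        linarith only [this, h81]
      have h9 : (p : ℝ) * (2 * (K : ℝ) ^ 2) * 1 ≤ 24 * (K : ℝ) ^ 4 * n := by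
        apply mul_le_mul h8 hn1 (by norm_num) (by positivity)
      have h10 : 2 * (K : ℝ) ^ 2 * p * n ≤ 24 * (K : ℝ) ^ 4 * n := by
        apply mul_le_mul_of_nonneg_right _ (by positivity)
        linarith
      rw [h5]
      linarith
    have h5 : (sq K p (-u) n : ℝ) ≤ (n : ℝ) ^ 2 / K + 48 * (K : ℝ) ^ 3 * n := by
      have h6 : (K : ℝ) * ((n : ℝ) ^ 2 / K + 48 * (K : ℝ) ^ 3 * n) =
          (n : ℝ) ^ 2 + 48 * (K : ℝ) ^ 4 * n := by
        field_simp
      exact le_of_mul_le_mul_left (by rw [h6]; exact h4) hKR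
    have h6 : (sq K p (-u) j : ℝ) ≤ (sq K p (-u) n : ℝ) := by exact_mod_cast h1
    exact h6.trans (h5.trans hx)
  · intro i j _ hij _
    exact sq_strictMono hK hp0 hm hij
  · intro i j k _ hij hjk _
    exact no_collinear hK hp hp1 hm hij hjk

lemma admissible_one {x : ℝ} (hx : 1 ≤ x) : Admissible x 1 := by
  refine ⟨fun _ => 1, ?_, ?_, ?_⟩
  · intro j _ _
    exact ⟨by norm_num, by push_cast; exact hx⟩
  · intro i j h1 h2 h3
    omega
  · intro i j k h1 h2 h3 h4
    omega

lemma lower {x : ℝ} (hx : 1 ≤ x) : 1 / 800 * x ^ (4 / 7 : ℝ) ≤ N x := by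
  have hx0 : 0 < x := by linarith
  set y : ℝ := x ^ (1 / 7 : ℝ) with hy
  have hy1 : 1 ≤ y := Real.one_le_rpow hx (by norm_num)
  have hy7 : y ^ 7 = x := by
    rw [hy, ← Real.rpow_natCast, ← Real.rpow_mul hx0.le]
    norm_num
  have hy4 : x ^ (4 / 7 : ℝ) = y ^ 4 := by
    rw [hy, ← Real.rpow_natCast, ← Real.rpow_mul hx0.le]
    norm_num
  rw [hy4]
  have hN1 : (1 : ℝ) ≤ N x := by exact_mod_cast le_N (admissible_one hx)
  rcases lt_or_ge (y ^ 4) 400 with h | h
  · linarith
  · set K : ℕ := ⌈y⌉₊ with hKdef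
    set n : ℕ := ⌊y ^ 4 / 400⌋₊ with hndef
    have hKy : y ≤ K := Nat.le_ceil y
    have hK2 : (K : ℝ) ≤ 2 * y := by
      have := Nat.ceil_lt_add_one (show 0 ≤ y by linarith)
      linarith
    have hK0 : 0 < K := by
      have : (0 : ℝ) < K := by linarith
      exact_mod_cast this
    have hn1 : (n : ℝ) ≤ y ^ 4 / 400 := Nat.floor_le (by positivity)
    have hn2 : y ^ 4 / 400 < n + 1 := Nat.lt_floor_add_one _
    have hn0 : (0 : ℝ) ≤ n := by positivity
    have hadm : Admissible x n := by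
      apply admissible_of K n hK0
      have h1 : (n : ℝ) ^ 2 / K ≤ y ^ 7 / 160000 := by
        rw [div_le_iff₀ (by linarith)]
        have h2 : (n : ℝ) ^ 2 ≤ (y ^ 4 / 400) ^ 2 := by
          apply pow_le_pow_left₀ hn0 hn1
        have h3 : y ^ 7 / 160000 * y ≤ y ^ 7 / 160000 * K :=
          mul_le_mul_of_nonneg_left hKy (by positivity)
        have h4 : (y ^ 4 / 400) ^ 2 = y ^ 7 / 160000 * y := by ring
        linarith
      have h2 : 48 * (K : ℝ) ^ 3 * n ≤ 384 / 400 * y ^ 7 := by
        have h3 : (K : ℝ) ^ 3 ≤ (2 * y) ^ 3 := pow_le_pow_left₀ (by positivity) hK2 3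
        have h4 : (K : ℝ) ^ 3 * n ≤ (2 * y) ^ 3 * (y ^ 4 / 400) :=
          mul_le_mul h3 hn1 hn0 (by positivity)
        have h5 : (2 * y) ^ 3 * (y ^ 4 / 400) = 8 / 400 * y ^ 7 := by ring
        linarith
      rw [← hy7]
      have : 0 ≤ y ^ 7 := by positivity
      linarith
    have hle : (n : ℝ) ≤ N x := by exact_mod_cast le_N hadm
    linarith

/-- `N x ≥ c x ^ (4/7)` for all `x ≥ 1` with an absolute constant `c > 0`; hence there is no
constant `C` with `N x ≤ C √x` for all `x ≥ 1`. -/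
theorem result :
    (∃ c : ℝ, 0 < c ∧ ∀ x : ℝ, 1 ≤ x → c * x ^ (4 / 7 : ℝ) ≤ N x) ∧
    ¬ ∃ C : ℝ, ∀ x : ℝ, 1 ≤ x → (N x : ℝ) ≤ C * √x := by
  refine ⟨⟨1 / 800, by norm_num, fun x hx => lower hx⟩, ?_⟩
  rintro ⟨C, hC⟩
  set t : ℝ := max 1 (800 * C + 1) with ht
  have ht1 : 1 ≤ t := le_max_left _ _
  have ht2 : 800 * C + 1 ≤ t := le_max_right _ _
  have ht0 : 0 < t := by linarith
  have hx : (1 : ℝ) ≤ t ^ 14 := one_le_pow₀ ht1
  have h1 := (lower hx).trans (hC _ hx)
  have h2 : (t ^ 14) ^ (4 / 7 : ℝ) = t ^ 8 := by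
    rw [← Real.rpow_natCast, ← Real.rpow_natCast, ← Real.rpow_mul ht0.le]
    norm_num
  have h3 : √(t ^ 14) = t ^ 7 := by
    rw [show t ^ 14 = (t ^ 7) ^ 2 by ring]
    exact Real.sqrt_sq (by positivity)
  rw [h2, h3] at h1
  have h4 : t ^ 7 * (1 / 800 * t) ≤ t ^ 7 * C := by linarith
  have h5 := le_of_mul_le_mul_left h4 (by positivity)
  linarith

end Pool.Agent.Results.MP_6d8139_co.FourSevenths
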